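import Pool.Agent.Lib.MP_926cc3_nt.RM.Spec
import Pool.Agent.Lib.MP_391708_nt.QPA.BasM

/-!
# VBD: lower bounds for `V z`
-/

set_option autoImplicit false

namespace Pool.Agent.Lib.MP_926cc3_nt.RM

namespace VBDM

open Pool.Agent.Lib.MP391708

lemma V_succ (z : ℕ) (hz : 1 ≤ z) : V z * (1 - 1 / (z : ℝ)) ≤ V (z + 1) := by
  have hV := V_pos z
  have hz' : (0 : ℝ) < z := by exact_mod_cast hz
  have e : (Finset.range (z + 1)).filter Nat.Prime =
      if z.Prime then insert z ((Finset.range z).filter Nat.Prime)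
        else (Finset.range z).filter Nat.Prime := by
    rw [Finset.range_add_one, Finset.filter_insert]
  unfold V at hV ⊢
  rw [e]
  split_ifs with h
  · rw [Finset.prod_insert (by simp), mul_comm]
  · have : 0 < 1 / (z : ℝ) := by positivity
    nlinarith

lemma one (n : ℕ) : 1 / ((n : ℝ) + 1) ≤ V (n + 2) := by
  induction n with
  | zero =>
    have h : (Finset.range (0 + 2)).filter Nat.Prime = ∅ := by decide
    unfold V
    rw [h]
    simp
  | succ n ih =>
    have h := V_succ (n + 2) (by omega)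
    have h1 : (0 : ℝ) ≤ n := Nat.cast_nonneg n
    have h2 : 1 - 1 / ((n + 2 : ℕ) : ℝ) = ((n : ℝ) + 1) / (n + 2) := by
      push_cast
      field_simp
      ring
    rw [h2] at h
    have h3 : 1 / ((n : ℝ) + 1) * (((n : ℝ) + 1) / (n + 2)) ≤ V (n + 2) * (((n : ℝ) + 1) / (n + 2)) :=
      mul_le_mul_of_nonneg_right ih (by positivity)
    have h4 : 1 / ((n : ℝ) + 1) * (((n : ℝ) + 1) / (n + 2)) = 1 / (((n + 1 : ℕ) : ℝ) + 1) := by
      push_cast
      field_simp
      ring
    rw [h4] at h3
    exact h3.trans h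

lemma lower (z : ℕ) : 1 / ((z : ℝ) + 1) ≤ V z := by
  rcases Nat.lt_or_ge z 2 with h | h
  · have e : (Finset.range z).filter Nat.Prime = ∅ := by
      rw [Finset.filter_eq_empty_iff]
      intro p hp hpp
      have := hpp.two_le
      have := Finset.mem_range.1 hp
      omega
    unfold V
    rw [e, Finset.prod_empty]
    have : (0 : ℝ) ≤ z := Nat.cast_nonneg z
    rw [div_le_one (by positivity)]
    linarith
  · obtain ⟨n, rfl⟩ : ∃ n, z = n + 2 := ⟨z - 2, by omega⟩
    refine le_trans ?_ (one n)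
    push_cast
    apply one_div_le_one_div_of_le (by positivity)
    linarith

end VBDM

open VBDM in
open Pool.Agent.Lib.MP391708 in
/-- **VBD**. -/
theorem specVBD : SpecVBD := by
  refine ⟨lower, ?_⟩
  obtain ⟨C, hC, h⟩ := QPA.BasM.Vw_le
  refine ⟨min (1 / C) (1 / 4), by positivity, fun z => ?_⟩
  have hl := Real.log_natCast_nonneg z
  rcases Nat.lt_or_ge z 4 with hz | hz
  · refine (min_le_right _ _).trans ?_
    have h1 := lower z
    have h2 : (z : ℝ) ≤ 3 := by exact_mod_cast (by omega : z ≤ 3)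
    have h3 : (1 : ℝ) / 4 ≤ 1 / ((z : ℝ) + 1) :=
      one_div_le_one_div_of_le (by positivity) (by linarith)
    have h4 := V_pos z
    nlinarith
  · refine (min_le_left _ _).trans ?_
    obtain ⟨w, rfl⟩ : ∃ w, z = w + 1 := ⟨z - 1, by omega⟩
    have h1 := h w (by omega)
    have h2 : QPA.Vw w = (V (w + 1))⁻¹ := by
      unfold QPA.Vw V
      rw [QPA.BasM.PB_eq, Finset.prod_inv_distrib]
    have hV := V_pos (w + 1)
    have hw : (0 : ℝ) < w := by exact_mod_cast (by omega : 0 < w)
    have h3 : Real.log w ≤ Real.log ((w + 1 : ℕ) : ℝ) := by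
      apply Real.log_le_log hw
      push_cast
      linarith
    rw [h2] at h1
    have h4 : 1 ≤ C * Real.log w * V (w + 1) := by
      rw [inv_le_iff_one_le_mul₀ hV] at h1
      exact h1
    rw [div_le_iff₀ hC]
    have h5 : C * Real.log w * V (w + 1) ≤ C * Real.log ((w + 1 : ℕ) : ℝ) * V (w + 1) :=
      mul_le_mul_of_nonneg_right (mul_le_mul_of_nonneg_left h3 hC.le) hV.le
    nlinarith [mul_pos hC hV]

end Pool.Agent.Lib.MP_926cc3_nt.RM
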