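import Mathlib

/-!
# MP_926cc3_nt: Shanks' law in the Cramér-Granville model with a variable sifting level, definitions

`z k` is the sifting level of the block `[2^k, 2^(k+1))`, `a p` a residue class modulo the prime `p`.
A number `n` of the block belongs to the random set with probability `min 1 (1 / (V (z k) log n))`
if `n ≢ a p (mod p)` for all primes `p < z k`, otherwise with probability `0`; all `n` independent.
-/

set_option autoImplicit false

open Filter Topology MeasureTheory ProbabilityTheory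

namespace Pool.Agent.Lib.MP_926cc3_nt.RM

/-- `n` avoids the residue class `a p` modulo `p` for every prime `p < z` -/
def Av (a : ℕ → ℕ) (z n : ℕ) : Prop := ∀ p : ℕ, p.Prime → p < z → ¬ (n ≡ a p [MOD p])

/-- `V z = ∏_{p < z} (1 - 1/p)` -/
noncomputable def V (z : ℕ) : ℝ := ∏ p ∈ (Finset.range z).filter Nat.Prime, (1 - 1 / (p : ℝ))

open Classical in
/-- the probability that `n` belongs to the random set -/
noncomputable def pn (a z : ℕ → ℕ) (n : ℕ) : ℝ :=
  if Av a (z (Nat.log 2 n)) n then min 1 (1 / (V (z (Nat.log 2 n)) * Real.log n)) else 0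

/-- the elements of `R` whose `g` immediate predecessors are greater than `1` and not in `R` -/
def OccSet (R : Set ℕ) (g : ℕ) : Set ℕ :=
  {n : ℕ | n ∈ R ∧ ∀ i : ℕ, 1 ≤ i → i ≤ g → 1 < n - i ∧ n - i ∉ R}

/-- the least element of `R` whose `g` immediate predecessors are greater than `1` and not in `R` -/
noncomputable def firstOcc (R : Set ℕ) (g : ℕ) : ℕ := sInf (OccSet R g)

/-- independent events `E n` with probabilities `pn a z n` -/
structure Model (a z : ℕ → ℕ) {Ω : Type} [MeasurableSpace Ω] (μ : Measure Ω) (E : ℕ → Set Ω) :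
    Prop where
  meas : ∀ n, MeasurableSet (E n)
  ind : iIndepSet E μ
  prob : ∀ n, μ (E n) = ENNReal.ofReal (pn a z n)

/-- the random set -/
def Rs {Ω : Type} (E : ℕ → Set Ω) (ω : Ω) : Set ℕ := {n | ω ∈ E n}

/-- `log (z k) = o(k)`: sifting level `x^(o(1))` -/
def Slow (z : ℕ → ℕ) : Prop := Tendsto (fun k : ℕ => Real.log (z k) / (k : ℝ)) atTop (𝓝 0)

/-- `log (z k) = o(log k)`: sifting level `(log x)^(o(1))` -/
def VSlow (z : ℕ → ℕ) : Prop := Tendsto (fun k : ℕ => Real.log (z k) / Real.log k) atTop (𝓝 0)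

/-- `∏_{p < z, p ∤ Q} (1 - 1/p)` -/
noncomputable def VQ (Q z : ℕ) : ℝ :=
  ∏ p ∈ (Finset.range z).filter (fun p => p.Prime ∧ ¬ p ∣ Q), (1 - 1 / (p : ℝ))

/-- the dyadic block -/
def blk (k : ℕ) : Finset ℕ := Finset.Ico (2 ^ k) (2 ^ (k + 1))

/-! ### first facts (all proved) -/

theorem mem_blk {k n : ℕ} : n ∈ blk k ↔ 2 ^ k ≤ n ∧ n < 2 ^ (k + 1) := Finset.mem_Ico

theorem log_of_mem_blk {k n : ℕ} (h : n ∈ blk k) : Nat.log 2 n = k :=
  Nat.log_eq_of_pow_le_of_lt_pow (mem_blk.1 h).1 (mem_blk.1 h).2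

theorem card_blk (k : ℕ) : (blk k).card = 2 ^ k := by
  unfold blk
  rw [Nat.card_Ico, pow_succ]
  omega

theorem factor_bounds {p : ℕ} (hp : p.Prime) : 1 / 2 ≤ 1 - 1 / (p : ℝ) ∧ 1 - 1 / (p : ℝ) < 1 := by
  have h2 : (2 : ℝ) ≤ p := by exact_mod_cast hp.two_le
  constructor
  · have : 1 / (p : ℝ) ≤ 1 / 2 := one_div_le_one_div_of_le (by norm_num) h2
    linarith
  · have : 0 < 1 / (p : ℝ) := by positivity
    linarith

theorem V_pos (z : ℕ) : 0 < V z :=
  Finset.prod_pos fun p hp => by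
    have := factor_bounds (Finset.mem_filter.1 hp).2
    linarith

theorem V_le_one (z : ℕ) : V z ≤ 1 :=
  Finset.prod_le_one (fun p hp => by
    have := factor_bounds (Finset.mem_filter.1 hp).2
    linarith) (fun p hp => (factor_bounds (Finset.mem_filter.1 hp).2).2.le)

theorem VQ_pos (Q z : ℕ) : 0 < VQ Q z :=
  Finset.prod_pos fun p hp => by
    have := factor_bounds (Finset.mem_filter.1 hp).2.1
    linarith

theorem VQ_le_one (Q z : ℕ) : VQ Q z ≤ 1 :=
  Finset.prod_le_one (fun p hp => by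
    have := factor_bounds (Finset.mem_filter.1 hp).2.1
    linarith) (fun p hp => (factor_bounds (Finset.mem_filter.1 hp).2.1).2.le)

theorem VQ_one (z : ℕ) : VQ 1 z = V z := by
  unfold VQ V
  congr 1
  apply Finset.filter_congr
  intro p _
  constructor
  · exact fun h => h.1
  · exact fun h => ⟨h, fun h1 => h.one_lt.ne' (Nat.dvd_one.1 h1)⟩

/-- the product over the primes dividing `Q` and the others -/
theorem V_eq_mul (Q z : ℕ) :
    V z = (∏ p ∈ (Finset.range z).filter (fun p => p.Prime ∧ p ∣ Q), (1 - 1 / (p : ℝ))) * VQ Q z := by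
  unfold V VQ
  rw [← Finset.prod_filter_mul_prod_filter_not ((Finset.range z).filter Nat.Prime)
    (fun p => p ∣ Q), Finset.filter_filter, Finset.filter_filter]

/-- `V z ≤ VQ Q z` -/
theorem V_le_VQ (Q z : ℕ) : V z ≤ VQ Q z := by
  rw [V_eq_mul Q z]
  have h1 : ∏ p ∈ (Finset.range z).filter (fun p => p.Prime ∧ p ∣ Q), (1 - 1 / (p : ℝ)) ≤ 1 :=
    Finset.prod_le_one (fun p hp => by
      have := factor_bounds (Finset.mem_filter.1 hp).2.1
      linarith) (fun p hp => (factor_bounds (Finset.mem_filter.1 hp).2.1).2.le)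
  have := VQ_pos Q z
  nlinarith

theorem pn_nonneg (a z : ℕ → ℕ) (n : ℕ) : 0 ≤ pn a z n := by
  unfold pn
  split_ifs
  · apply le_min zero_le_one
    have h1 := V_pos (z (Nat.log 2 n))
    have h2 := Real.log_natCast_nonneg n
    positivity
  · exact le_rfl

theorem pn_le_one (a z : ℕ → ℕ) (n : ℕ) : pn a z n ≤ 1 := by
  unfold pn
  split_ifs
  · exact min_le_left _ _
  · exact zero_le_one

open Classical in
/-- the value in a block -/
theorem pn_blk (a z : ℕ → ℕ) {k n : ℕ} (h : n ∈ blk k) :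
    pn a z n = if Av a (z k) n then min 1 (1 / (V (z k) * Real.log n)) else 0 := by
  unfold pn
  rw [log_of_mem_blk h]

/-- bounds for `log n` in a block -/
theorem log_blk {k n : ℕ} (h : n ∈ blk k) :
    (k : ℝ) * Real.log 2 ≤ Real.log n ∧ Real.log n ≤ ((k : ℝ) + 1) * Real.log 2 := by
  obtain ⟨h1, h2⟩ := mem_blk.1 h
  have h3 : ((2 : ℝ) ^ k) ≤ n := by exact_mod_cast h1
  have h4 : (n : ℝ) ≤ (2 : ℝ) ^ (k + 1) := by exact_mod_cast h2.le
  have h0 : (0 : ℝ) < (2 : ℝ) ^ k := by positivity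
  constructor
  · rw [← Real.log_pow]
    exact Real.log_le_log h0 h3
  · have h5 := Real.log_le_log (lt_of_lt_of_le h0 h3) h4
    rw [Real.log_pow] at h5
    push_cast at h5
    exact h5

/-- upper bound of the expected number of elements of a subset of a block -/
theorem sum_pn_le (a z : ℕ → ℕ) {k : ℕ} (hk : 1 ≤ k) (I : Finset ℕ) (hI : ∀ n ∈ I, n ∈ blk k) :
    ∑ n ∈ I, pn a z n ≤
      (Set.ncard {n | n ∈ I ∧ Av a (z k) n} : ℝ) / (V (z k) * ((k : ℝ) * Real.log 2)) := by
  classical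
  have hV := V_pos (z k)
  have hk' : (1 : ℝ) ≤ k := by exact_mod_cast hk
  have hl : 0 < Real.log 2 := Real.log_pos (by norm_num)
  have e : {n | n ∈ I ∧ Av a (z k) n} = ((I.filter (fun n => Av a (z k) n) : Finset ℕ) : Set ℕ) := by
    ext n; simp
  rw [e, Set.ncard_coe_finset]
  have h1 : ∀ n ∈ I, pn a z n ≤
      if Av a (z k) n then 1 / (V (z k) * ((k : ℝ) * Real.log 2)) else 0 := by
    intro n hn
    rw [pn_blk a z (hI n hn)]
    split_ifs
    · refine (min_le_right _ _).trans ?_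
      apply one_div_le_one_div_of_le (by positivity)
      exact mul_le_mul_of_nonneg_left (log_blk (hI n hn)).1 hV.le
    · exact le_rfl
  refine (Finset.sum_le_sum h1).trans (le_of_eq ?_)
  rw [← Finset.sum_filter, Finset.sum_const, nsmul_eq_mul]
  ring

end Pool.Agent.Lib.MP_926cc3_nt.RM
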