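import Pool.Agent.Lib.MP_926cc3_nt.RM.Defs

/-!
# MP_926cc3_nt: Shanks' law in the Cramér-Granville model with sifting level `z` (Specs)

THEOREM (`SpecFIN`).  Let `log (z k) = o(k)` (sifting level `x^(o(1))`), residue classes `a p` arbitrary.
(1) Almost surely `limsup log p_R(g) / √g ≤ 1`.
(2) If `log (z k) = o(log k)` then almost surely `log p_R(g) ~ √g` (Shanks' law).
(3) For every `α > 0` there is `c < 1` (not depending on `z`, `a`): if `z k ≥ k^α` for infinitely many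
`k` then almost surely `log p_R(g) ≤ c √g` for infinitely many `g`.
So Shanks' law holds almost surely iff the sifting level is `(log x)^(o(1))`.

Every module XXX = file `RM/XXX.lean` (import this file), theorem
`specXXX (hYYY : SpecYYY) .. : SpecXXX` (ANY other Spec may be a hypothesis), namespace
`Pool.Agent.Lib.MP_926cc3_nt.RM`, own lemmas in `...RM.XXXM`.  `Defs.lean` has proved facts
(`V_pos, V_le_one, V_eq_mul, V_le_VQ, pn_nonneg, pn_le_one, pn_blk, log_blk, sum_pn_le, card_blk`).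
Notation of the docstrings: `V_k = V (z k)`, `W(I) = ∑_{n ∈ I} pn a z n`, block `k` = `blk k`.
-/

set_option autoImplicit false

open Filter Topology MeasureTheory ProbabilityTheory

namespace Pool.Agent.Lib.MP_926cc3_nt.RM

/-! ## Part 1: sieve -/

open Classical in
/-- **SVE** (200 lines; fundamental lemma in a progression).  PROOF.  Library:
`Pool.Agent.Lib.MP391708.QPA.FL.specFL : QPA.SpecFL` (file MP_391708_nt/QPA/FL.lean).  By the Chinese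
remainder theorem (`Nat.chineseRemainderOfFinset` or induction over the primes `< z`) there is `A` with
`A + a p ≡ 0 (mod p)` for all primes `p < z`; so `Av a z n ↔ no prime p < z divides n + A`, i.e.
`rInd z (n + A) = 1`.  Apply SpecFL with the real number `max z 2` (no primes `< 2`), `S = Ioc N (N+X)`,
`v t = Q t + m + A`, `om = 1`, `g p = 0` if `p ∣ Q`, `1/p` otherwise.  For squarefree `δ` with prime
factors `< z`: if some `p ∣ δ` divides `Q`, then no `t` has `δ ∣ v t` (it would give `p ∣ m + A`, i.e.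
`m ≡ a p`) and the product of the `g p` is `0`; otherwise `Q` is invertible modulo `δ`, the number of
`t ∈ Ioc N (N+X)` in one class modulo `δ` differs from `X/δ` by at most `1`, and `∏ g p = 1/δ`.  So the
error term is at most `C e^(-b) X VQ + C (1 + log z) z^(8b+16)`.  Choose `b` with `C e^(-b) ≤ ε/2`;
`VQ Q z ≥ V z ≥ 1/(z+1)` (VBD, or `∏ (1-1/p) ≥ ∏_{2 ≤ n < z} (1-1/n)`), so the second part is
`≤ (ε/2) X VQ` if `X ≥ (z+2)^s` with `s` large in terms of `b, C, ε` (`z + 2 ≥ 2`). -/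
def SpecSVE : Prop := ∀ ε : ℝ, 0 < ε → ∃ s : ℕ, ∀ (z Q m N X : ℕ) (a : ℕ → ℕ), 1 ≤ Q →
  (∀ p : ℕ, p.Prime → p < z → p ∣ Q → ¬ (m ≡ a p [MOD p])) → ((z : ℝ) + 2) ^ s ≤ X →
  |(((Finset.Ioc N (N + X)).filter (fun t => Av a z (Q * t + m))).card : ℝ) - X * VQ Q z| ≤
    ε * (X * VQ Q z)

/-- **VBD** (100 lines).  PROOF.  (1) `∏_{p<z} (1-1/p) ≥ ∏_{2≤n<z} (1-1/n) = 1/(z-1)` (induction on `z`:
`V (z+1) ≥ V z (1 - 1/z)`).  (2) `QPA.Vw_le` of MP_391708_nt/QPA/BasM.lean: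
`∏_{p≤w} (1-1/p)⁻¹ ≤ C log w` for `w ≥ 3`; for small `z` use (1) (`log 0 = 0` in Lean: `V 0 = 1`). -/
def SpecVBD : Prop := (∀ z : ℕ, 1 / ((z : ℝ) + 1) ≤ V z) ∧
  ∃ c : ℝ, 0 < c ∧ ∀ z : ℕ, c ≤ V z * (1 + Real.log z)

/-- **MER** (100 lines).  PROOF.  Library: `mertens_rat` in
MP_5b6025_nt/RP/Main.lean: for every `ε` there is `C` with
`|∑_{p≤N} log p/p - log N| ≤ ε log N + C`.  With `ε = (γ-β)/8` at `N = ⌊y^γ⌋` and `⌊y^β⌋`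
(`log ⌊y^γ⌋ ≥ γ log y - 1`): `∑_{y^β<p≤y^γ} log p/p ≥ (γ-β)/2 · log y` for large `y`, and
`1/p ≥ (log p/p)/(γ log y)`.  So `c = (γ-β)/(2γ)`. -/
def SpecMER : Prop := ∀ β γ : ℝ, 0 < β → β < γ → γ ≤ 1 → ∃ c : ℝ, 0 < c ∧ ∃ Y : ℕ, ∀ y : ℕ, Y ≤ y →
  c ≤ ∑ p ∈ (Finset.range (y + 1)).filter
    (fun p : ℕ => p.Prime ∧ (y : ℝ) ^ β < (p : ℝ) ∧ (p : ℝ) ≤ (y : ℝ) ^ γ), 1 / (p : ℝ)

open Classical in
/-- **DEA** (150 lines; exact inclusion-exclusion).  `P` a finite set of primes, `k ≥ 2` even, every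
product of `k` different elements of `P` is `> y` (it suffices that every `p ∈ P` has `p^k > y`), and
`λ = ∑_{p∈P} 1/p ≤ 1`.  Write `e_j = ∑_{T ⊆ P, #T = j} ∏_{p∈T} 1/p` (`Finset.powersetCard`).
PROOF.  For `1 ≤ m ≤ y` the set `T_m` of the `p ∈ P` dividing `m` has `#T_m < k` (else `m ≥` the product
`> y`), so `[T_m = ∅] = ∑_{j<k} (-1)^j C(#T_m, j)` (alternating sum of all binomials).  Sum over `m`:
the number is `∑_{j<k} (-1)^j ∑_{#T=j} ⌊y/∏T⌋ ≤ y ∑_{j<k} (-1)^j e_j + #{T : #T < k}`, and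
`#{T ⊆ P : #T < k} ≤ k (#P + 1)^(k-1)`.  Finally `∏_{p∈P} (1-1/p) = ∑_j (-1)^j e_j` and
`e_(j+1) ≤ e_j λ/(j+1) ≤ e_j/2` for `j ≥ 1` (`(j+1) e_(j+1) ≤ λ e_j`), so the tail
`∑_{j≥k} (-1)^j e_j ≥ e_k - e_(k+1) ≥ e_k/2` (pair the terms; `k` even).  So
`∑_{j<k} (-1)^j e_j ≤ ∏ (1-1/p) - e_k/2`. -/
def SpecDEA : Prop := ∀ (P : Finset ℕ) (k y : ℕ), (∀ p ∈ P, p.Prime) → Even k → 2 ≤ k →
  (∀ p ∈ P, (y : ℕ) < p ^ k) → ∑ p ∈ P, 1 / (p : ℝ) ≤ 1 →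
  (((Finset.Icc 1 y).filter (fun m => ∀ p ∈ P, ¬ p ∣ m)).card : ℝ) ≤
    y * (∏ p ∈ P, (1 - 1 / (p : ℝ)) - (∑ T ∈ P.powersetCard k, ∏ p ∈ T, 1 / (p : ℝ)) / 2)
      + k * ((P.card : ℝ) + 1) ^ (k - 1)

/-- **DEB** (100 lines).  Lower bound for the elementary symmetric function.  PROOF.  By induction on `k`:
`(k+1) e_(k+1) = ∑_T ∏_T (λ - ∑_{p∈T} 1/p) ≥ e_k (λ - k x)` if all `1/p ≤ x`; so
`e_k ≥ (λ - k x)^k / k!` if `λ ≥ k x`. -/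
def SpecDEB : Prop := ∀ (P : Finset ℕ) (k : ℕ) (x : ℝ), (∀ p ∈ P, 0 < p ∧ 1 / (p : ℝ) ≤ x) →
  (k : ℝ) * x ≤ ∑ p ∈ P, 1 / (p : ℝ) →
  ((∑ p ∈ P, 1 / (p : ℝ)) - k * x) ^ k / (k.factorial : ℝ) ≤
    ∑ T ∈ P.powersetCard k, ∏ p ∈ T, 1 / (p : ℝ)

open Classical in
/-- **DEF** (200 lines; from MER, DEA, DEB).  PROOF.  Let `k` be even, `k ≥ 4`, `1/(k-2/3) < α/2`;
`β = 1/(k-1/3)`, `γ = 1/(k-2/3)` (`γ ≤ 0.3`), `P0` = the primes in `(y^β, y^γ]`.  MER: `∑_{P0} 1/p ≥ c0`.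
Let `P ⊆ P0` be a subset with `min c0 1 / 2 ≤ λ = ∑_P 1/p ≤ 1` (take the primes one by one; each
`1/p` is `≤ y^(-β)`, small).  `p^k > y^(kβ) > y` as `kβ > 1`.  DEB with `x = y^(-β)`:
`e_k ≥ (c0'/2)^k/k! =: 4c` for large `y`.  DEA: the error `k (#P+1)^(k-1) ≤ k (2 y^γ)^(k-1)
= C y^((k-1)/(k-2/3)) ≤ c y` for large `y`.  So the number is `≤ y ∏(1-1/p) - 2c y + c y ≤
(1-c) y ∏(1-1/p)` (`∏ ≤ 1`).  `p ≤ y^γ < y^(α/2)`; `∏P ≤ (y^γ)^(y^γ) ≤ exp(y^(2/5))` for large `y`;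
`∏P > y`: `#P ≥ λ y^β ≥ k`, so `∏P ≥ (y^β)^k > y`. -/
def SpecDEF : Prop := ∀ α : ℝ, 0 < α → ∃ c : ℝ, 0 < c ∧ c ≤ 1 / 2 ∧ ∃ Y : ℕ, ∀ y : ℕ, Y ≤ y →
  ∃ P : Finset ℕ, (∀ p ∈ P, p.Prime ∧ (p : ℝ) < (y : ℝ) ^ (α / 2)) ∧ y < ∏ p ∈ P, p ∧
    ((∏ p ∈ P, p : ℕ) : ℝ) ≤ Real.exp ((y : ℝ) ^ (2 / 5 : ℝ)) ∧
    (((Finset.Icc 1 y).filter (fun m => ∀ p ∈ P, ¬ p ∣ m)).card : ℝ) ≤
      (1 - c) * (y * ∏ p ∈ P, (1 - 1 / (p : ℝ)))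

open Classical in
/-- **MRK** (40 lines; Markov).  PROOF.  `M #{f > M} ≤ ∑ f ≤ (1-θ) M #T`. -/
def SpecMRK : Prop := ∀ (T : Finset ℕ) (f : ℕ → ℝ) (M θ : ℝ), (∀ t ∈ T, 0 ≤ f t) → 0 < M →
  ∑ t ∈ T, f t ≤ (1 - θ) * (M * (T.card : ℝ)) →
  θ * (T.card : ℝ) ≤ ((T.filter (fun t => f t ≤ M)).card : ℝ)

/-- **BSM** (200 lines; from SVE, VBD).  Block sums.  PROOF.  `Slow z` gives `z k + 2 ≤ 2^(k/s)`.. for large
`k` (`log (z k + 2) ≤ log 3 + log (z k)` if `z k ≥ 1`), so `(z k + 2)^s ≤ 2^k`.  (1) `sum_pn_le` and SVE with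
`Q = 1`, `m = 0`, `Ioc (2^k - 1) (2^k - 1 + 2^k) = blk k`: the number of avoiding `n` in the block is
`≤ (1+ε) 2^k V_k`.  (2) For large `k` `V_k log n ≥ 1` on the block (VBD (2): `V_k k log 2 → ∞` as
`log (z k) = o(k)`), so `pn = 1/(V_k log n) ≥ 1/(V_k (k+1) log 2)` on the avoiding `n`, whose number is
`≥ (1-ε) 2^k V_k`.  (3) `pn ≤ 1/(V_k k log 2) → 0`. -/
def SpecBSM : Prop := ∀ (a z : ℕ → ℕ), Slow z → ∀ ε : ℝ, 0 < ε → ∀ᶠ k : ℕ in atTop,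
  ∑ n ∈ blk k, pn a z n ≤ (1 + ε) * ((2 : ℝ) ^ k / (k * Real.log 2)) ∧
  (1 - ε) * ((2 : ℝ) ^ k / ((k + 1) * Real.log 2)) ≤ ∑ n ∈ blk k, pn a z n ∧
  ∀ n ∈ blk k, pn a z n ≤ ε

/-! ## Part 2: probability -/

/-- **EXP** (60 lines).  PROOF.  `1 - x ≤ e^(-x)`; and `1 - x ≥ e^(-x-x²)` for `0 ≤ x ≤ 1/2`
(`x + x² ≥ -log(1-x)`: e.g. `Real.one_sub_inv_le_log_of_pos`-type bounds: `log (1-x) ≥ -x/(1-x)` and
`x/(1-x) ≤ x + 2x²`.. it is fine to use `δ/2` in place of `δ`: here `p n ≤ δ/2`, so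
`x/(1-x) ≤ (1+δ) x` for `x ≤ δ/2`, `δ ≤ 1/2`). -/
def SpecEXP : Prop := ∀ (I : Finset ℕ) (p : ℕ → ℝ) (δ : ℝ), 0 < δ → δ ≤ 1 / 2 →
  ((∀ n ∈ I, 0 ≤ p n ∧ p n ≤ 1) → ∏ n ∈ I, (1 - p n) ≤ Real.exp (-∑ n ∈ I, p n)) ∧
  ((∀ n ∈ I, 0 ≤ p n ∧ p n ≤ δ / 2) → Real.exp (-((1 + δ) * ∑ n ∈ I, p n)) ≤ ∏ n ∈ I, (1 - p n))

/-- **PRA** (80 lines).  The probability that `R` misses `I`.  PROOF.  The complements of independent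
events are independent (`iIndepSet` iff the indicator functions / generated σ-algebras are independent;
`ProbabilityTheory.iIndepSet.meas_biInter`-type lemma after `iIndepSet.compl`, or induction over `I` with
inclusion-exclusion); `μ (E n)ᶜ = 1 - pn`. -/
def SpecPRA : Prop := ∀ (a z : ℕ → ℕ) (Ω : Type) [MeasurableSpace Ω] (μ : Measure Ω)
  [IsProbabilityMeasure μ] (E : ℕ → Set Ω), Model a z μ E → ∀ I : Finset ℕ,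
    μ {ω | ∀ n ∈ I, ω ∉ E n} = ENNReal.ofReal (∏ n ∈ I, (1 - pn a z n))

/-- **PRB** (150 lines; from PRA).  The probability that none of the disjoint sets `I t` is missed.  PROOF.
The events `A t = {ω | ∀ n ∈ I t, ω ∉ E n}`, `t ∈ T`, are independent: the intersection over any subset
`T' ⊆ T` is the event of PRA for the union, and the product splits.  So the probability of
`⋂ (A t)ᶜ` is `∏ (1 - μ (A t)) ≤ exp (-∑ μ (A t))` (e.g. induction over `T`, proving for all finite `I'`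
disjoint from the `I t`: `μ ({missed I'} ∩ ⋂_{t∈T} (A t)ᶜ) = ∏_{I'} (1-pn) ∏_t (1 - q_t)`: the step is
`μ (X ∩ (A t)ᶜ) = μ X - μ (X ∩ A t)`). -/
def SpecPRB : Prop := ∀ (a z : ℕ → ℕ) (Ω : Type) [MeasurableSpace Ω] (μ : Measure Ω)
  [IsProbabilityMeasure μ] (E : ℕ → Set Ω), Model a z μ E → ∀ (T : Finset ℕ) (I : ℕ → Finset ℕ),
    (∀ t ∈ T, ∀ t' ∈ T, t ≠ t' → Disjoint (I t) (I t')) →
    μ {ω | ∀ t ∈ T, ∃ n ∈ I t, ω ∈ E n} ≤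
      ENNReal.ofReal (Real.exp (-∑ t ∈ T, ∏ n ∈ I t, (1 - pn a z n)))

/-- **HIT** (60 lines; from PRB, EXP).  PROOF.  Each product is `≥ exp (-(1+δ) w)`. -/
def SpecHIT : Prop := ∀ (a z : ℕ → ℕ) (Ω : Type) [MeasurableSpace Ω] (μ : Measure Ω)
  [IsProbabilityMeasure μ] (E : ℕ → Set Ω), Model a z μ E → ∀ (T : Finset ℕ) (I : ℕ → Finset ℕ)
  (δ w : ℝ), 0 < δ → δ ≤ 1 / 2 →
    (∀ t ∈ T, ∀ t' ∈ T, t ≠ t' → Disjoint (I t) (I t')) →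
    (∀ t ∈ T, (∀ n ∈ I t, pn a z n ≤ δ / 2) ∧ ∑ n ∈ I t, pn a z n ≤ w) →
    μ {ω | ∀ t ∈ T, ∃ n ∈ I t, ω ∈ E n} ≤
      ENNReal.ofReal (Real.exp (-((T.card : ℝ) * Real.exp (-((1 + δ) * w)))))

/-- **BLN** (100 lines; from BSM, PRA, EXP).  Almost surely every large block contains an element of `R`.
PROOF.  The probability that block `k` is missed is `≤ exp(-W(blk k)) ≤ exp(-2^k/(2(k+1)))` for large
`k`, summable (`≤ (1/2)^k`); Borel-Cantelli (`measure_limsup_atTop_eq_zero` or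
`ae_eventually_notMem`). -/
def SpecBLN : Prop := ∀ (a z : ℕ → ℕ), Slow z → ∀ (Ω : Type) [MeasurableSpace Ω] (μ : Measure Ω)
  [IsProbabilityMeasure μ] (E : ℕ → Set Ω), Model a z μ E →
    ∀ᵐ ω ∂μ, ∀ᶠ k : ℕ in atTop, ∃ n ∈ blk k, ω ∈ E n

/-- **GAP** (60 lines; no probability).  PROOF.  (1) Let `n'` be the least element of `R` above `m + g`; its `g`
predecessors are in `(m, n')`, so not in `R` and `> 1`.  (2) `m = n - g - 1`. -/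
def SpecGAP : Prop :=
  (∀ (R : Set ℕ) (g m n : ℕ), 1 ≤ m → (∀ j : ℕ, m < j → j ≤ m + g → j ∉ R) → n ∈ R → m + g < n →
    (OccSet R g).Nonempty ∧ firstOcc R g ≤ n) ∧
  (∀ (R : Set ℕ) (g n : ℕ), 1 ≤ g → n ∈ OccSet R g →
    ∃ m : ℕ, 1 ≤ m ∧ m + g + 1 = n ∧ ∀ j ∈ Finset.Ioc m (m + g), j ∉ R)

/-! ## Part 3: the three parts -/

/-- **UPA** (200 lines; from BSM, MRK).  Many intervals with few survivors, for every `z`.  PROOF.  Let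
`I_t = Ioc (2^k - 1 + t g) (2^k - 1 + (t+1) g)`, `t < J = ⌊2^k/g⌋` (disjoint, contained in block `k`).
`∑_t W(I_t) ≤ W(blk k) ≤ (1+ε/8) 2^k/(k log 2)` (BSM) and `J ≥ (1 - ε/8) 2^k/g` (since `g ≤ 4 k²`), so
the average of `W(I_t)` is `≤ (1+ε/8)/(1-ε/8) g/(k log 2) ≤ (1 - ε/8) (1+ε) g/(k log 2)`
(`(1+ε/8) ≤ (1-ε/8)²(1+ε)` for `0 < ε ≤ 1`).  MRK with `M = (1+ε) g/(k log 2)`, `θ = ε/8`; finally
`(ε/8) J ≥ 2^k/k³` for large `k`. -/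
def SpecUPA : Prop := ∀ (a z : ℕ → ℕ), Slow z → ∀ ε : ℝ, 0 < ε → ε ≤ 1 → ∀ᶠ k : ℕ in atTop,
  ∀ g : ℕ, 1 ≤ g → (g : ℝ) ≤ 4 * (k : ℝ) ^ 2 → ∃ (T : Finset ℕ) (m : ℕ → ℕ),
    (2 : ℝ) ^ k / (k : ℝ) ^ 3 ≤ (T.card : ℝ) ∧
    (∀ t ∈ T, 1 ≤ m t ∧ Finset.Ioc (m t) (m t + g) ⊆ blk k) ∧
    (∀ t ∈ T, ∀ t' ∈ T, t ≠ t' →
      Disjoint (Finset.Ioc (m t) (m t + g)) (Finset.Ioc (m t') (m t' + g))) ∧
    ∀ t ∈ T, ∑ n ∈ Finset.Ioc (m t) (m t + g), pn a z n ≤ (1 + ε) * (g / (k * Real.log 2))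

/-- **UPP** (200 lines; from UPA, HIT, BSM, BLN, GAP).  Part (1).  PROOF.  Let `ε ≤ 1`,
`k = ⌊(1+ε/2) √g / log 2⌋`, so `k log 2 ≥ (1+ε/2)√g - log 2 ≥ (1+ε/3) √g` and `g ≤ 4k²` for large `g`.
UPA with `ε' = ε/100`: `W(I_t) ≤ (1+ε') √g/(1+ε/3) ≤ √g`; `pn ≤ δ/2` on block `k` (BSM (3)), `δ = ε/8`.
HIT with `w = √g`: the probability that no interval of length `g` of block `k` is empty is
`≤ exp(-2^k k^(-3) exp(-(1+ε/8)√g))`, `2^k ≥ (1/2) exp((1+ε/2)√g)`, so it is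
`≤ exp(-exp(ε√g/4)) ≤ 1/g²` for large `g`: summable, Borel-Cantelli.  If such an interval is empty and
`n ∈ R ∩ blk (k+1)` (BLN), GAP gives `p_R(g) ≤ n < 2^(k+2) ≤ 4 exp((1+ε/2)√g) ≤ exp((1+ε)√g)`. -/
def SpecUPP : Prop := ∀ (a z : ℕ → ℕ), Slow z → ∀ (Ω : Type) [MeasurableSpace Ω] (μ : Measure Ω)
  [IsProbabilityMeasure μ] (E : ℕ → Set Ω), Model a z μ E → ∀ ε : ℝ, 0 < ε →
    ∀ᵐ ω ∂μ, ∀ᶠ g : ℕ in atTop, (OccSet (Rs E ω) g).Nonempty ∧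
      Real.log (firstOcc (Rs E ω) g) ≤ (1 + ε) * √(g : ℝ)

/-- **LWA** (250 lines; from SVE, VBD).  Every interval of length `g` has the expected number of elements, if
`log z k = o(log k)`.  PROOF.  Let `s ≥ 1` belong to `η/4` in SVE.  `VSlow z` gives
`z k + 2 ≤ g^(1/(2s+2))` for all `k ≤ 2√g` and large `g` (`z k ≤ k^ε'` for `k ≥ k0`, bounded for `k < k0`).
Let `n ∈ Ioc m (m+g)` be in block `k`: `k log 2 ≤ log n ≤ L ≤ √g`, so `k ≤ 2√g`; `0 < log n ≤ L`, and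
`V_k L ≥ L/(z k + 1) ≥ 1` (VBD (1), `z k + 1 ≤ g^(1/4) ≤ L`), so `pn = min 1 (1/(V_k log n)) ≥ 1/(V_k L)`
if `n` is avoiding.
For each `k` let `I_k = Ioc m (m+g) ∩ blk k` (an interval).  If `#I_k ≥ √g ≥ (z k + 2)^s`, SVE gives
`∑_{I_k} pn ≥ (1-η/4) #I_k/L`; in any case `∑_{I_k} pn ≥ (1-η/4) (#I_k - √g)/L`.  Sum over `k` from
`Nat.log 2 (m+1)` to `Nat.log 2 (m+g)`: at most `Nat.log 2 g + 2` values (`m + g ≤ (m+1) g`), so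
`W ≥ (1-η/4)(g - (log2 g + 2)√g)/L ≥ (1-η) g/L`. -/
def SpecLWA : Prop := ∀ (a z : ℕ → ℕ), VSlow z → ∀ η : ℝ, 0 < η → ∀ᶠ g : ℕ in atTop,
  ∀ (m : ℕ) (L : ℝ), 1 ≤ m → Real.log (m + g : ℕ) ≤ L → L ≤ √(g : ℝ) →
    (g : ℝ) ^ (1 / 4 : ℝ) ≤ L →
    (1 - η) * (g / L) ≤ ∑ n ∈ Finset.Ioc m (m + g), pn a z n

/-- **LOW** (150 lines; from LWA, PRA, EXP, GAP).  Part (2), lower bound.  PROOF.  `0 < ε < 1`,
`L = (1-ε)√g` (`≥ g^(1/4)` for large `g`), `N = ⌊exp L⌋`.  If some `n ∈ OccSet` has `log n < L` then by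
GAP (2) `R` misses `Ioc m (m+g)` with `m + g < n ≤ N`, `m ≥ 1`, `log (m+g) ≤ L`.  Union bound:
probability `≤ N exp(-(1-η)√g/(1-ε)) ≤ exp((1-ε)√g - (1-η)√g/(1-ε))`, and with `η = ε/2`
`(1-η)/(1-ε) - (1-ε) ≥ ε/2`.  So it is `≤ exp(-ε√g/2) ≤ 1/g²`, Borel-Cantelli. -/
def SpecLOW : Prop := ∀ (a z : ℕ → ℕ), VSlow z → ∀ (Ω : Type) [MeasurableSpace Ω]
  (μ : Measure Ω) [IsProbabilityMeasure μ] (E : ℕ → Set Ω), Model a z μ E → ∀ ε : ℝ, 0 < ε → ε < 1 →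
    ∀ᵐ ω ∂μ, ∀ᶠ g : ℕ in atTop, ∀ n ∈ OccSet (Rs E ω) g, (1 - ε) * √(g : ℝ) ≤ Real.log n

open Classical in
/-- **NGA** (250 lines; from SVE, VBD, DEF, MRK).  Many intervals with few survivors.  PROOF.  Let `c0` belong
to `α` in DEF, `k` large with `k^α ≤ z k`, `y ≤ k²`, `P`, `Q = ∏P`: all `p ∈ P` are `< y^(α/2) ≤ k^α ≤ z k`,
`y < Q ≤ exp(k^(4/5))`.  `n0 < Q` with `n0 ≡ a p (mod p)` for `p ∈ P` (CRT).  Let `N = ⌈2^k/Q⌉`,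
`X = ⌊2^k/Q⌋ - 3`, `m t = Q t + n0`, `t ∈ T0 = Ioc N (N+X)`: `Ioc (m t) (m t + y)` is in block `k`, and
these are disjoint as `Q > y`.  Let `S t` = number of `i ∈ Icc 1 y` with `Av a (z k) (m t + i)`.  If some
`p ∈ P` divides `i`, then `m t + i ≡ a p`: not counted.  For the other `i` SVE (with `m := n0 + i`; its
hypothesis: `p ∣ Q`, `p` prime, so `p ∈ P` and `n0 + i ≡ a p` would give `p ∣ i`) the number of `t` is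
`≤ (1+c0/2) X VQ Q (z k)` (`(z k + 2)^s ≤ X` as `Slow z` and `Q = 2^(o(k))`).  So by DEF
`∑_t S t ≤ (1+c0/2)(1-c0) y ∏_P (1-1/p) X VQ = (1+c0/2)(1-c0) y X V_k ≤ (1-c0/2) y X V_k`
(`V_eq_mul`: the primes `< z k` dividing `Q` are the `p ∈ P`).  MRK with `M = (1-c0/4) y V_k`,
`θ = c0/4`.  `c = c0/4`; `#T ≥ (c0/4) X ≥ 2^((1-c/8) k)` for large `k`. -/
def SpecNGA : Prop := ∀ α : ℝ, 0 < α → ∃ c : ℝ, 0 < c ∧ c ≤ 1 / 2 ∧ ∀ (a z : ℕ → ℕ), Slow z →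
  ∀ᶠ k : ℕ in atTop, (k : ℝ) ^ α ≤ z k → ∀ y : ℕ, (k : ℝ) ^ 2 / 4 ≤ y → (y : ℝ) ≤ (k : ℝ) ^ 2 →
    ∃ (T : Finset ℕ) (m : ℕ → ℕ), (2 : ℝ) ^ ((1 - c / 8) * (k : ℝ)) ≤ (T.card : ℝ) ∧
    (∀ t ∈ T, 1 ≤ m t ∧ Finset.Ioc (m t) (m t + y) ⊆ blk k) ∧
    (∀ t ∈ T, ∀ t' ∈ T, t ≠ t' →
      Disjoint (Finset.Ioc (m t) (m t + y)) (Finset.Ioc (m t') (m t' + y))) ∧
    ∀ t ∈ T, (((Finset.Ioc (m t) (m t + y)).filter (fun n => Av a (z k) n)).card : ℝ) ≤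
      (1 - c) * (y * V (z k))

/-- **NEG** (200 lines; from NGA, HIT, BSM, BLN, GAP).  Part (3).  PROOF.  `c` from NGA; for `k` with
`k^α ≤ z k` let `g = y = ⌊(1+c/2)(k log 2)²⌋` (`k²/4 ≤ y ≤ k²` since `0.48 ≤ (log 2)² ≤ 0.4805`,
`c ≤ 1/2`).  `sum_pn_le`: `W(I_t) ≤ (1-c) y V_k/(V_k k log 2) ≤ (1-c)(1+c/2) k log 2 ≤
(1-c/2) k log 2 =: w`.  HIT, `δ = c/8`: `(1+δ) w ≤ (1-c/4) k log 2`, so the probability that no `I_t` is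
empty is `≤ exp(-2^((1-c/8)k) 2^(-(1-c/4)k)) = exp(-2^(ck/8))`, summable in `k`.  Borel-Cantelli: a.s. for
all large `k` with `k^α ≤ z k` some `I_t` is missed by `R`; with `n ∈ R ∩ blk (k+1)` GAP gives
`p_R(g) ≤ n < 2^(k+2)`: `log p_R(g) ≤ (k+2) log 2 ≤ c' √g`, `c' = (1+c/4)^(-1/2) < 1`, since
`√g ≥ √((1+c/2)(k log 2)² - 1)`.  `g → ∞` with `k`, and there are infinitely many such `k`. -/
def SpecNEG : Prop := ∀ α : ℝ, 0 < α → ∃ c : ℝ, c < 1 ∧ ∀ (a z : ℕ → ℕ), Slow z →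
  (∃ᶠ k : ℕ in atTop, (k : ℝ) ^ α ≤ z k) → ∀ (Ω : Type) [MeasurableSpace Ω] (μ : Measure Ω)
  [IsProbabilityMeasure μ] (E : ℕ → Set Ω), Model a z μ E →
    ∀ᵐ ω ∂μ, ∃ᶠ g : ℕ in atTop, Real.log (firstOcc (Rs E ω) g) ≤ c * √(g : ℝ)

/-- **FIN** (100 lines; from UPP, LOW, NEG).  The theorem.  PROOF.  (2): UPP and LOW for `ε = 1/j`, `j ∈ ℕ`
(countable intersections), `firstOcc ∈ OccSet` (`Nat.sInf_mem`). -/
def SpecFIN : Prop :=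
  (∀ (a z : ℕ → ℕ), Slow z → ∀ (Ω : Type) [MeasurableSpace Ω] (μ : Measure Ω)
    [IsProbabilityMeasure μ] (E : ℕ → Set Ω), Model a z μ E →
      (∀ᵐ ω ∂μ, ∀ ε : ℝ, 0 < ε → ∀ᶠ g : ℕ in atTop,
        Real.log (firstOcc (Rs E ω) g) ≤ (1 + ε) * √(g : ℝ)) ∧
      (VSlow z → ∀ᵐ ω ∂μ, Tendsto
        (fun g : ℕ => Real.log (firstOcc (Rs E ω) g) / √(g : ℝ)) atTop (𝓝 1))) ∧
  ∀ α : ℝ, 0 < α → ∃ c : ℝ, c < 1 ∧ ∀ (a z : ℕ → ℕ), Slow z →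
    (∃ᶠ k : ℕ in atTop, (k : ℝ) ^ α ≤ z k) → ∀ (Ω : Type) [MeasurableSpace Ω] (μ : Measure Ω)
    [IsProbabilityMeasure μ] (E : ℕ → Set Ω), Model a z μ E →
      ∀ᵐ ω ∂μ, ∃ᶠ g : ℕ in atTop, Real.log (firstOcc (Rs E ω) g) ≤ c * √(g : ℝ)

end Pool.Agent.Lib.MP_926cc3_nt.RM
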